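import Mathlib

/-!
# Project GF (MP_ca1109_lc, owner helper58), piece A: a Chernoff bound by counting
-/

set_option autoImplicit false

namespace Pool.Agent.W2helper3.GF

open Finset

theorem exp_bd {y l : ℝ} (hl : 0 ≤ l) (hl1 : l ≤ 1) (hy : |y| ≤ 1) :
    Real.exp (l * y) ≤ 1 + l * y + l ^ 2 := by
  have h1 : |l * y| ≤ l := by
    rw [abs_mul, abs_of_nonneg hl]
    exact mul_le_of_le_one_right hl hy
  have h2 := Real.abs_exp_sub_one_sub_id_le (h1.trans hl1)
  have h3 := (abs_le.1 h2).2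
  have h4 : (l * y) ^ 2 ≤ l ^ 2 := by
    rw [← sq_abs]
    exact pow_le_pow_left₀ (abs_nonneg _) h1 2
  linarith

/-- one side -/
theorem one_side {ι V : Type} [Fintype ι] [DecidableEq ι] [Fintype V] (g : V → ℝ)
    (h0 : ∑ v, g v = 0) (h1 : ∀ v, |g v| ≤ 1) :
    (Nat.card {ω : ι → V // (1 / 8 : ℝ) * Fintype.card ι < ∑ s, g (ω s)} : ℝ) ≤
      Real.exp (-(Fintype.card ι : ℝ) / 256) * (Fintype.card V : ℝ) ^ Fintype.card ι := by
  classical
  set m := Fintype.card ι with hm
  -- the exponential moment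
  have h2 : ∑ ω : ι → V, Real.exp ((1 / 16) * ∑ s, g (ω s)) ≤
      ((Fintype.card V : ℝ) * Real.exp ((1 / 16) ^ 2)) ^ m := by
    have e1 : ∑ ω : ι → V, Real.exp ((1 / 16) * ∑ s, g (ω s)) =
        ∏ _s : ι, ∑ v, Real.exp ((1 / 16) * g v) := by
      rw [Finset.prod_univ_sum, Fintype.piFinset_univ]
      refine Finset.sum_congr rfl fun ω _ => ?_
      rw [Finset.mul_sum, Real.exp_sum]
    rw [e1, Finset.prod_const, Finset.card_univ, ← hm]
    refine pow_le_pow_left₀ (Finset.sum_nonneg fun v _ => (Real.exp_pos _).le) ?_ m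
    calc ∑ v, Real.exp ((1 / 16) * g v) ≤ ∑ v, (1 + (1 / 16) * g v + (1 / 16) ^ 2) :=
          Finset.sum_le_sum fun v _ => exp_bd (by norm_num) (by norm_num) (h1 v)
      _ = (Fintype.card V : ℝ) * (1 + (1 / 16) ^ 2) := by
          rw [Finset.sum_add_distrib, Finset.sum_add_distrib, ← Finset.mul_sum, h0,
            Finset.sum_const, Finset.sum_const, Finset.card_univ]
          simp only [nsmul_eq_mul]
          ring
      _ ≤ (Fintype.card V : ℝ) * Real.exp ((1 / 16) ^ 2) := by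
          gcongr
          have := Real.add_one_le_exp (((1 : ℝ) / 16) ^ 2)
          linarith
  have h3 : (Nat.card {ω : ι → V // (1 / 8 : ℝ) * m < ∑ s, g (ω s)} : ℝ) *
      Real.exp ((1 / 16) * ((1 / 8) * m)) ≤ ∑ ω : ι → V, Real.exp ((1 / 16) * ∑ s, g (ω s)) := by
    rw [Nat.card_eq_fintype_card, Fintype.card_subtype]
    calc ((univ.filter fun ω : ι → V => (1 / 8 : ℝ) * m < ∑ s, g (ω s)).card : ℝ) *
          Real.exp ((1 / 16) * ((1 / 8) * m)) =
          ∑ _ω ∈ univ.filter (fun ω : ι → V => (1 / 8 : ℝ) * m < ∑ s, g (ω s)),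
            Real.exp ((1 / 16) * ((1 / 8) * m)) := by
          rw [Finset.sum_const, nsmul_eq_mul]
      _ ≤ ∑ ω ∈ univ.filter (fun ω : ι → V => (1 / 8 : ℝ) * m < ∑ s, g (ω s)),
            Real.exp ((1 / 16) * ∑ s, g (ω s)) := by
          refine Finset.sum_le_sum fun ω hω => ?_
          rw [Finset.mem_filter] at hω
          apply Real.exp_le_exp.2
          have := hω.2
          linarith
      _ ≤ _ := Finset.sum_le_sum_of_subset_of_nonneg (Finset.filter_subset _ _)
          fun ω _ _ => (Real.exp_pos _).le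
  have h4 := h3.trans h2
  rw [← le_div_iff₀ (Real.exp_pos _)] at h4
  refine h4.trans (le_of_eq ?_)
  rw [mul_pow, ← Real.exp_nat_mul, mul_div_assoc, ← Real.exp_sub, mul_comm]
  congr 2
  ring

theorem chern {ι : Type} [Fintype ι] (t : ℕ) (h : (Fin t → Bool) → Prop) :
    (Nat.card {ω : ι → Fin t → Bool // (1 / 8 : ℝ) * Fintype.card ι <
      |(Nat.card {s // h (ω s)} : ℝ) -
        Fintype.card ι * ((Nat.card {v : Fin t → Bool // h v} : ℝ) / 2 ^ t)|} : ℝ) ≤
      2 * Real.exp (-(Fintype.card ι : ℝ) / 256) * 2 ^ (t * Fintype.card ι) := by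
  classical
  set m := Fintype.card ι with hm
  set c : ℝ := (Nat.card {v : Fin t → Bool // h v} : ℝ) with hc
  set μ : ℝ := c / 2 ^ t with hμ
  have hV : (Fintype.card (Fin t → Bool) : ℝ) = 2 ^ t := by
    rw [Fintype.card_fun, Fintype.card_bool, Fintype.card_fin]
    push_cast
    rfl
  have hpos : (0 : ℝ) < 2 ^ t := by positivity
  have hc0 : 0 ≤ c := by positivity
  have hc1 : c ≤ 2 ^ t := by
    rw [← hV, hc, Nat.card_eq_fintype_card]
    exact_mod_cast Fintype.card_subtype_le h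
  have hμ0 : 0 ≤ μ := by positivity
  have hμ1 : μ ≤ 1 := by
    rw [hμ, div_le_one hpos]
    exact hc1
  set g : (Fin t → Bool) → ℝ := fun v => (if h v then 1 else 0) - μ with hg
  have hsum : ∑ v, g v = 0 := by
    rw [hg]
    simp only [Finset.sum_sub_distrib, Finset.sum_const, Finset.card_univ, nsmul_eq_mul, hV]
    rw [Finset.sum_boole, hμ, mul_div_cancel₀ _ hpos.ne', hc, Nat.card_eq_fintype_card,
      Fintype.card_subtype, sub_self]
  have habs : ∀ v, |g v| ≤ 1 := by
    intro v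
    rw [hg, abs_le]
    simp only
    split_ifs
    · constructor <;> linarith
    · constructor <;> linarith
  have hval : ∀ ω : ι → Fin t → Bool, (Nat.card {s // h (ω s)} : ℝ) - m * μ = ∑ s, g (ω s) := by
    intro ω
    rw [hg]
    simp only [Finset.sum_sub_distrib, Finset.sum_const, Finset.card_univ, nsmul_eq_mul]
    rw [Finset.sum_boole, Nat.card_eq_fintype_card, Fintype.card_subtype, ← hm]
  have h1 := one_side (ι := ι) g hsum habs
  have h2 := one_side (ι := ι) (fun v => -g v) (by rw [Finset.sum_neg_distrib, hsum, neg_zero])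
    (fun v => by rw [abs_neg]; exact habs v)
  rw [hV, ← hm] at h1 h2
  have h3 : (Nat.card {ω : ι → Fin t → Bool // (1 / 8 : ℝ) * m <
      |(Nat.card {s // h (ω s)} : ℝ) - m * μ|} : ℝ) ≤
      (Nat.card {ω : ι → Fin t → Bool // (1 / 8 : ℝ) * m < ∑ s, g (ω s)} : ℝ) +
      (Nat.card {ω : ι → Fin t → Bool // (1 / 8 : ℝ) * m < ∑ s, -g (ω s)} : ℝ) := by
    rw [Nat.card_eq_fintype_card, Nat.card_eq_fintype_card, Nat.card_eq_fintype_card]
    have h4 : Fintype.card {ω : ι → Fin t → Bool // (1 / 8 : ℝ) * m <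
        |(Nat.card {s // h (ω s)} : ℝ) - m * μ|} ≤
        Fintype.card {ω : ι → Fin t → Bool // (1 / 8 : ℝ) * m < ∑ s, g (ω s) ∨
          (1 / 8 : ℝ) * m < ∑ s, -g (ω s)} := by
      apply Fintype.card_subtype_mono
      intro ω hω
      rw [hval, lt_abs] at hω
      rw [Finset.sum_neg_distrib]
      exact hω
    have h5 := Fintype.card_subtype_or (fun ω : ι → Fin t → Bool => (1 / 8 : ℝ) * m < ∑ s, g (ω s))
      (fun ω => (1 / 8 : ℝ) * m < ∑ s, -g (ω s))
    exact_mod_cast h4.trans h5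
  have h6 : ((2 : ℝ) ^ t) ^ m = 2 ^ (t * m) := (pow_mul _ _ _).symm
  rw [h6] at h1 h2
  linarith

end Pool.Agent.W2helper3.GF
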