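import Pool.Agent.W2helper58.GF.Stm
import Pool.Agent.H620R2.Gauge2.Null
import Pool.Agent.W2helper3.GF.Chern

/-!
# Project GF (MP_ca1109_lc, owner helper58), pieces A and B
-/

set_option autoImplicit false

namespace Pool.Agent.W2helper3.GF

open Finset Pool.Agent.NPC Pool.Agent.H620R2.Gauge Pool.Agent.W2helper58.GF

theorem p_chern : P_chern := fun _ _ t h => chern t h

/-- counting: a product bound -/
theorem card_bound {α β γ : Type} [Fintype α] [Fintype β] [Fintype γ] (e : α ≃ β × γ)
    (E : α → Prop) (q : ℝ) (h : ∀ c, (Nat.card {b // E (e.symm (b, c))} : ℝ) ≤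
      q * Fintype.card β) : (Nat.card {x // E x} : ℝ) ≤ q * Fintype.card α := by
  classical
  have h1 : Nat.card {x // E x} = ∑ c : γ, Nat.card {b // E (e.symm (b, c))} := by
    have e0 : {x // E x} ≃ {p : β × γ // E (e.symm p)} :=
      e.subtypeEquiv fun x => by rw [e.symm_apply_apply]
    have e1 : {p : β × γ // E (e.symm p)} ≃ Σ c : γ, {b // E (e.symm (b, c))} :=
      { toFun := fun p => ⟨p.1.2, p.1.1, p.2⟩
        invFun := fun s => ⟨(s.2.1, s.1), s.2.2⟩
        left_inv := fun p => rfl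
        right_inv := fun s => rfl }
    rw [Nat.card_congr e0, Nat.card_congr e1, Nat.card_sigma]
  have h2 : (Fintype.card α : ℝ) = Fintype.card β * Fintype.card γ := by
    rw [Fintype.card_congr e, Fintype.card_prod]
    push_cast
    rfl
  rw [h1, h2]
  push_cast
  refine (Finset.sum_le_sum fun c _ => h c).trans (le_of_eq ?_)
  rw [Finset.sum_const, nsmul_eq_mul, Finset.card_univ]
  ring

theorem p_cover : P_cover := by
  classical
  intro ι J _ _ _ t a N hN pos hinj hlen h hdep f δ hδ
  have hidx : ∀ y : List Bool, y.length ≤ a → idx y < N := by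
    intro y hy
    rw [idx_eq]
    have h1 := (sval_bounds y).2
    have h2 : 2 ^ (y.length + 1) ≤ 2 ^ (a + 1) := Nat.pow_le_pow_right (by norm_num) (by omega)
    have h3 := sval_pos y
    omega
  have hidxi : ∀ y z : List Bool, idx y = idx z → y = z := by
    intro y z hyz
    rw [← str_idx y, ← str_idx z, hyz]
  set m := Fintype.card ι with hm
  have hm0 : 0 < m := Fintype.card_pos
  set φ : ι × Fin t → Fin N := fun p => ⟨idx (pos p.1 p.2), hidx _ (hlen _ _).le⟩ with hφd
  have hφ : Function.Injective φ := by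
    rintro ⟨s, i⟩ ⟨s', i'⟩ he
    have h1 : idx (pos s i) = idx (pos s' i') := congrArg Fin.val he
    obtain ⟨h2, h3⟩ := hinj _ _ _ _ (hidxi _ _ h1)
    rw [h2, h3]
  -- the equivalence
  let e0 : (Fin N → Bool) ≃ ({x // x ∈ Set.range φ} → Bool) × ({x // ¬ x ∈ Set.range φ} → Bool) :=
    Equiv.piEquivPiSubtypeProd (fun x => x ∈ Set.range φ) (fun _ => Bool)
  let e1 : ({x // x ∈ Set.range φ} → Bool) ≃ (ι → Fin t → Bool) :=
    (Equiv.arrowCongr (Equiv.ofInjective φ hφ).symm (Equiv.refl Bool)).trans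
      (Equiv.curry ι (Fin t) Bool)
  let e : (Fin N → Bool) ≃ (ι → Fin t → Bool) × ({x // ¬ x ∈ Set.range φ} → Bool) :=
    e0.trans (Equiv.prodCongr e1 (Equiv.refl _))
  have hw : ∀ (w : ι → Fin t → Bool) (τ : {x // ¬ x ∈ Set.range φ} → Bool) (s : ι) (i : Fin t),
      e.symm (w, τ) (φ (s, i)) = w s i := by
    intro w τ s i
    have h1 : e (e.symm (w, τ)) = (w, τ) := e.apply_symm_apply _
    have h2 : (e (e.symm (w, τ))).1 s i = e.symm (w, τ) (φ (s, i)) := rfl
    rw [← h2, h1]
  have hτ : ∀ (w : ι → Fin t → Bool) (τ : {x // ¬ x ∈ Set.range φ} → Bool) (x : Fin N)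
      (hx : ¬ x ∈ Set.range φ), e.symm (w, τ) x = τ ⟨x, hx⟩ := by
    intro w τ x hx
    have h1 : e (e.symm (w, τ)) = (w, τ) := e.apply_symm_apply _
    have h2 : (e (e.symm (w, τ))).2 ⟨x, hx⟩ = e.symm (w, τ) x := rfl
    rw [← h2, h1]
  -- one test
  have hone : ∀ j : J, (Nat.card {ω : Fin N → Bool // (1 / 8 : ℝ) <
      |(Nat.card {s // h j (orc N ω) (fun i => orc N ω (pos s i))} : ℝ) / m -
        (Nat.card {v : Fin t → Bool // h j (orc N ω) v} : ℝ) / 2 ^ t|} : ℝ) ≤
      (2 * Real.exp (-(m : ℝ) / 256)) * Fintype.card (Fin N → Bool) := by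
    intro j
    refine card_bound e _ _ fun τ => ?_
    set H : (Fin t → Bool) → Prop := h j (orc N (e.symm (fun _ _ => false, τ))) with hH
    have h1 : ∀ w : ι → Fin t → Bool, h j (orc N (e.symm (w, τ))) = H := by
      intro w
      apply hdep
      intro y hy
      have h2 := hidx y hy.le
      have h3 : ¬ (⟨idx y, h2⟩ : Fin N) ∈ Set.range φ := by
        rintro ⟨⟨s, i⟩, he⟩
        have h4 := hidxi _ _ (congrArg Fin.val he : idx (pos s i) = idx y)
        have h5 := hlen s i
        rw [h4] at h5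
        omega
      unfold orc
      rw [dif_pos h2, dif_pos h2, hτ _ _ _ h3, hτ _ _ _ h3]
    have h2 : ∀ (w : ι → Fin t → Bool) (s : ι),
        (fun i => orc N (e.symm (w, τ)) (pos s i)) = w s := by
      intro w s
      funext i
      unfold orc
      rw [dif_pos (hidx _ (hlen s i).le)]
      exact hw w τ s i
    have h3 := chern (ι := ι) t H
    rw [← hm] at h3
    have h4 : (Fintype.card (ι → Fin t → Bool) : ℝ) = 2 ^ (t * m) := by
      rw [Fintype.card_fun, Fintype.card_fun, Fintype.card_bool, Fintype.card_fin, ← hm]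
      push_cast
      rw [pow_mul]
    rw [h4]
    refine le_trans (le_of_eq ?_) h3
    congr 1
    refine Nat.card_congr (Equiv.subtypeEquivRight fun w => ?_)
    simp only [h1, h2]
    have hmr : (0 : ℝ) < m := by exact_mod_cast hm0
    have h5 : ∀ x y : ℝ, (1 / 8 < |x / m - y|) ↔ (1 / 8 * (m : ℝ) < |x - m * y|) := by
      intro x y
      have h6 : x - m * y = (x / m - y) * m := by
        field_simp
      rw [h6, abs_mul, abs_of_pos hmr]
      exact (mul_lt_mul_iff_of_pos_right hmr).symm
    exact h5 _ _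
  have hall : (Nat.card {ω : Fin N → Bool // Told t pos h (orc N ω)} : ℝ) ≤
      (Fintype.card J : ℝ) * ((2 * Real.exp (-(m : ℝ) / 256)) * Fintype.card (Fin N → Bool)) := by
    have h1 : Nat.card {ω : Fin N → Bool // Told t pos h (orc N ω)} ≤
        ∑ j : J, Nat.card {ω : Fin N → Bool // (1 / 8 : ℝ) <
          |(Nat.card {s // h j (orc N ω) (fun i => orc N ω (pos s i))} : ℝ) / m -
            (Nat.card {v : Fin t → Bool // h j (orc N ω) v} : ℝ) / 2 ^ t|} := by
      rw [← Nat.card_sigma]
      refine Nat.card_le_card_of_injective (fun ω => (⟨ω.2.choose, ω.1, ω.2.choose_spec⟩ :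
        Σ j : J, {ω : Fin N → Bool // (1 / 8 : ℝ) <
          |(Nat.card {s // h j (orc N ω) (fun i => orc N ω (pos s i))} : ℝ) / m -
            (Nat.card {v : Fin t → Bool // h j (orc N ω) v} : ℝ) / 2 ^ t|})) ?_
      intro ω ω' he
      apply Subtype.ext
      exact congrArg (fun z => z.2.1) he
    calc (Nat.card {ω : Fin N → Bool // Told t pos h (orc N ω)} : ℝ) ≤ _ := by exact_mod_cast h1
      _ ≤ _ := Finset.sum_le_sum fun j _ => hone j
      _ = _ := by rw [Finset.sum_const, nsmul_eq_mul, Finset.card_univ]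
  refine cover_of_event (N := N) (fun ω => Told t pos h (orc N ω)) {A | Told t pos h A} ?_ f δ ?_
  · rintro A ⟨j, hj⟩
    refine ⟨j, ?_⟩
    have h1 : ∀ y : List Bool, y.length ≤ a → orc N (pre N A) y = A y := by
      intro y hy
      unfold orc
      rw [dif_pos (hidx y hy)]
      show A (str (idx y)) = A y
      rw [str_idx]
    have h2 : h j (orc N (pre N A)) = h j A := hdep j _ _ fun y hy => h1 y hy.le
    have h3 : ∀ s, (fun i => orc N (pre N A) (pos s i)) = fun i => A (pos s i) := by
      intro s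
      funext i
      exact h1 _ (hlen s i).le
    simp only [h2, h3]
    exact hj
  · refine le_trans ?_ hδ
    have h1 := card_of_Ex (fun ω : Fin N → Bool => Told t pos h (orc N ω))
    have h2 : (Fintype.card (Fin N → Bool) : ℝ) = 2 ^ (N : ℝ) := by
      rw [Fintype.card_fun, Fintype.card_bool, Fintype.card_fin, Real.rpow_natCast]
      push_cast
      rfl
    rw [Nat.card_eq_fintype_card, Fintype.card_subtype, h2] at hall
    rw [← h1]
    have h3 : (2 : ℝ) ^ (N : ℝ) * 2 ^ (-(N : ℝ)) = 1 := by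
      rw [← Real.rpow_add (by norm_num), add_neg_cancel, Real.rpow_zero]
    refine mul_le_mul_of_nonneg_right ?_ (by positivity)
    calc _ ≤ ((Fintype.card J : ℝ) * ((2 * Real.exp (-(m : ℝ) / 256)) * 2 ^ (N : ℝ))) *
          2 ^ (-(N : ℝ)) := mul_le_mul_of_nonneg_right hall (by positivity)
      _ = (Fintype.card J : ℝ) * (2 * Real.exp (-(m : ℝ) / 256)) *
          (2 ^ (N : ℝ) * 2 ^ (-(N : ℝ))) := by ring
      _ = (Fintype.card J : ℝ) * (2 * Real.exp (-(m : ℝ) / 256)) := by rw [h3, mul_one]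

end Pool.Agent.W2helper3.GF
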